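import Pool.Agent.H917AT.Eqv

set_option autoImplicit false

universe u

namespace Pool.Agent.Results.MP_54e5d7_al.PowerAmplification

open Pool.Agent.H917AT

open Classical in
/-- The von Neumann dimension of the kernel of right multiplication by the matrix `A` over `ℂ[G]`
on `ℓ²(G)^m`: the sum over `i` of `1 - dist(δ_(i,1), kernel)²`. -/
noncomputable def dimKer {G : Type u} [Group G] {m n : ℕ} (A : Matrix (Fin m) (Fin n) (G →₀ ℂ)) :
    ℝ :=
  ∑ i : Fin m,
    (1 - (Metric.infDist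
      (lp.single 2 (i, (1 : G)) (1 : ℂ) : lp (fun _ : Fin m × G => ℂ) 2)
      {x : lp (fun _ : Fin m × G => ℂ) 2 | ∀ (j : Fin n) (g : G),
        ∑ i' : Fin m, (A i' j).sum (fun h c => x (i', g * h⁻¹) * c) = 0}) ^ 2)

/-- `d` is the least common multiple of the orders of the finite subgroups of `G`, which are
bounded. -/
def IsLcm (G : Type u) [Group G] (d : ℕ) : Prop :=
  (∃ B : ℕ, ∀ H : Subgroup G, Finite H → Nat.card H ≤ B) ∧
  (∀ H : Subgroup G, Finite H → Nat.card H ∣ d) ∧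
  (∀ e : ℕ, (∀ H : Subgroup G, Finite H → Nat.card H ∣ e) → d ∣ e)

theorem dimKer_eq {G : Type u} [Group G] {m n : ℕ} (A : Matrix (Fin m) (Fin n) (G →₀ ℂ)) :
    dimKer A = kd A := rfl

/-- the coefficients -/
noncomputable def FS (F : Subfield ℂ) : AddSubmonoid ℂ := F.toSubring.toAddSubgroup.toAddSubmonoid

theorem DD_iff (F : Subfield ℂ) {G : Type u} [Group G] (t : ℝ) :
    DD (FS F) G t ↔ ∃ (m n : ℕ) (A : Matrix (Fin m) (Fin n) (G →₀ ℂ)),
      (∀ i j g, A i j g ∈ F) ∧ dimKer A = t := Iff.rfl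

/-- orders of finite subgroups of a power -/
theorem card_pow {G : Type u} [Group G] {d : ℕ} (hd : ∀ H : Subgroup G, Finite H → Nat.card H ∣ d)
    (n : ℕ) (K : Subgroup (Fin n → G)) (hK : Finite K) : Nat.card K ∣ d ^ n := by
  classical
  set P : Fin n → Subgroup G := fun i => K.map (Pi.evalMonoidHom (fun _ : Fin n => G) i) with hP
  have hfin : ∀ i, Finite (P i) := fun i =>
    Finite.of_surjective ((Pi.evalMonoidHom (fun _ : Fin n => G) i).subgroupMap K)
      (MonoidHom.subgroupMap_surjective _ K)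
  set φ : K →* (∀ i, P i) := MonoidHom.pi fun i => (Pi.evalMonoidHom (fun _ : Fin n => G) i).subgroupMap K with hφ
  have hinj : Function.Injective φ := by
    intro a b hab
    apply Subtype.ext
    funext i
    have := congrArg Subtype.val (congrFun hab i)
    exact this
  have h1 : Nat.card K ∣ Nat.card (∀ i, P i) := Subgroup.card_dvd_of_injective φ hinj
  refine h1.trans ?_
  rw [Nat.card_pi]
  have h2 : ∏ i : Fin n, Nat.card (P i) ∣ ∏ _i : Fin n, d :=
    Finset.prod_dvd_prod_of_dvd _ _ fun i _ => hd (P i) (hfin i)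
  simpa using h2

theorem exists_lcm {G : Type u} [Group G] (B : ℕ) (hB : ∀ H : Subgroup G, Finite H → Nat.card H ≤ B) :
    ∃ d, IsLcm G d := by
  classical
  set s : Finset ℕ := (Finset.range (B + 1)).filter
    (fun k => ∃ H : Subgroup G, Finite H ∧ Nat.card H = k) with hs
  refine ⟨s.lcm id, ⟨B, hB⟩, fun H hH => ?_, fun e he => ?_⟩
  · have : Nat.card H ∈ s := by
      rw [hs, Finset.mem_filter, Finset.mem_range]
      exact ⟨Nat.lt_succ_of_le (hB H hH), H, hH, rfl⟩
    exact Finset.dvd_lcm (f := id) this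
  · apply Finset.lcm_dvd
    intro k hk
    rw [hs, Finset.mem_filter] at hk
    obtain ⟨_, H, hH, rfl⟩ := hk
    exact he H hH

theorem IsLcm.pos {G : Type u} [Group G] {d : ℕ} (h : IsLcm G d) : 0 < d := by
  obtain ⟨⟨B, hB⟩, _, h3⟩ := h
  have h4 : d ∣ B.factorial := h3 _ fun H hH =>
    Nat.dvd_factorial (Nat.card_pos) (hB H hH)
  exact Nat.pos_of_dvd_of_pos h4 (Nat.factorial_pos B)

/-- For every subfield `F` of `ℂ`, equivalence of
1. the Atiyah conjecture with coefficients in `F` for all groups with bounded orders of finite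
   subgroups: `lcm(G) * dim ker r_A ∈ ℤ` for all matrices `A` over `F[G]`;
2. for every finitely generated `G` with bounded orders of finite subgroups there is an integer
   `N > 0` such that for all `k`, `N * lcm(G) ^ k * dim ker r_A ∈ ℤ` for all matrices `A` over
   `F[G ^ k]`;
3. for every finitely generated `G` with bounded orders of finite subgroups there are `k ≥ 1` and
   `1 ≤ N < 2 ^ k` such that `N * lcm(G) ^ k * dim ker r_A ∈ ℤ` for all matrices `A` over
   `F[G ^ k]`. -/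
theorem result (F : Subfield ℂ) : List.TFAE [
    ∀ (G : Type u) [Group G] (d : ℕ), IsLcm G d →
      ∀ (m n : ℕ) (A : Matrix (Fin m) (Fin n) (G →₀ ℂ)), (∀ i j g, A i j g ∈ F) →
        ∃ z : ℤ, (d : ℝ) * dimKer A = z,
    ∀ (G : Type u) [Group G] (d : ℕ), Group.FG G → IsLcm G d → ∃ N : ℕ, 0 < N ∧
      ∀ (k m n : ℕ) (A : Matrix (Fin m) (Fin n) ((Fin k → G) →₀ ℂ)), (∀ i j g, A i j g ∈ F) →
        ∃ z : ℤ, (N : ℝ) * (d : ℝ) ^ k * dimKer A = z,
    ∀ (G : Type u) [Group G] (d : ℕ), Group.FG G → IsLcm G d → ∃ k N : ℕ, 0 < k ∧ 0 < N ∧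
      N < 2 ^ k ∧
      ∀ (m n : ℕ) (A : Matrix (Fin m) (Fin n) ((Fin k → G) →₀ ℂ)), (∀ i j g, A i j g ∈ F) →
        ∃ z : ℤ, (N : ℝ) * (d : ℝ) ^ k * dimKer A = z] := by
  tfae_have 1 → 2 := by
    intro h G _ d _ hd
    refine ⟨1, one_pos, fun k m n A hA => ?_⟩
    have hdp := hd.pos
    obtain ⟨d', hd'⟩ := exists_lcm (G := Fin k → G) (d ^ k) (fun H hH =>
      Nat.le_of_dvd (pow_pos hdp k) (card_pow hd.2.1 k H hH))
    obtain ⟨c, hc⟩ := hd'.2.2 _ (fun H hH => card_pow hd.2.1 k H hH)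
    obtain ⟨z, hz⟩ := h (Fin k → G) d' hd' m n A hA
    refine ⟨c * z, ?_⟩
    have hc' : (d : ℝ) ^ k = d' * c := by exact_mod_cast hc
    rw [hc']
    push_cast
    rw [← hz]
    ring
  tfae_have 2 → 3 := by
    intro h G _ d hfg hd
    obtain ⟨N, hN, hN2⟩ := h G d hfg hd
    exact ⟨N, N, hN, hN, Nat.lt_pow_self one_lt_two, fun m n A hA => hN2 N m n A hA⟩
  tfae_have 3 → 1 := by
    intro h G _ d hd m n A hA
    have hD : DD (FS F) G (dimKer A) := ⟨m, n, A, hA, rfl⟩
    obtain ⟨N, hNfg, hND⟩ := hD.fg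
    have hsub : ∀ H : Subgroup N, Finite H → ∃ H' : Subgroup G, Finite H' ∧
        Nat.card H' = Nat.card H := by
      intro H hH
      refine ⟨H.map N.subtype, ?_, ?_⟩
      · exact Finite.of_surjective (N.subtype.subgroupMap H) (MonoidHom.subgroupMap_surjective _ H)
      · exact Subgroup.card_map_of_injective Subtype.val_injective
    obtain ⟨B, hB⟩ := hd.1
    obtain ⟨d', hd'⟩ := exists_lcm (G := N) B (fun H hH => by
      obtain ⟨H', hH', hc⟩ := hsub H hH
      rw [← hc]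
      exact hB H' hH')
    obtain ⟨c, hc⟩ := hd'.2.2 d (fun H hH => by
      obtain ⟨H', hH', hc⟩ := hsub H hH
      rw [← hc]
      exact hd.2.1 H' hH')
    obtain ⟨k, M, hk, hM, hMk, hint⟩ := h N d' ((Group.fg_iff_subgroup_fg N).2 hNfg) hd'
    obtain ⟨z, hz⟩ := amplify (FS F) N d' k M hd'.pos hk hM hMk (fun t ht => by
      obtain ⟨m', n', A', hA', rfl⟩ := (DD_iff F t).1 ht
      exact hint m' n' A' hA') _ hND
    refine ⟨c * z, ?_⟩
    rw [hc]
    push_cast
    rw [← hz]
    ring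
  tfae_finish

end Pool.Agent.Results.MP_54e5d7_al.PowerAmplification
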